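import Pool.Agent.Helper26.HI.Defs

/-!
# HI, block HC4': the discriminant
-/

set_option autoImplicit false

namespace Pool.Agent.Helper26.HI

open MvPolynomial

/-- **HC4'**: the discriminant -/
theorem disc {r : ℕ} (P : Polynomial (MvPolynomial (Fin r) ℤ)) (hPm : P.Monic) (hirr : Irreducible P) :
    ∃ Δ : MvPolynomial (Fin r) ℤ, Δ ≠ 0 ∧ ∀ (t : Fin r → ℤ) (x m : ℤ), m ∣ V P t x → m ∣ V P.derivative t x →
      m ∣ eval t Δ := by
  classical
  let R := MvPolynomial (Fin r) ℤ
  let K := FractionRing R
  have hinj : Function.Injective (algebraMap R K) := IsFractionRing.injective R K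
  have hchar : CharZero K := by
    have : CharZero R := inferInstance
    exact charZero_of_injective_algebraMap hinj
  have hirrK : Irreducible (P.map (algebraMap R K)) :=
    (Polynomial.Monic.irreducible_iff_irreducible_map_fraction_map (K := K) hPm).1 hirr
  obtain ⟨u, v, huv⟩ := hirrK.separable
  obtain ⟨b₁, hm₁, hb₁⟩ := IsLocalization.integerNormalization_spec (nonZeroDivisors R) (S := K) u
  obtain ⟨b₂, hm₂, hb₂⟩ := IsLocalization.integerNormalization_spec (nonZeroDivisors R) (S := K) v
  set U := IsLocalization.integerNormalization (nonZeroDivisors R) u with hU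
  set W := IsLocalization.integerNormalization (nonZeroDivisors R) v with hW
  have hb₁0 : (b₁ : R) ≠ 0 := nonZeroDivisors.ne_zero hm₁
  have hb₂0 : (b₂ : R) ≠ 0 := nonZeroDivisors.ne_zero hm₂
  have hkey : Polynomial.C (b₂ : R) * U * P + Polynomial.C (b₁ : R) * W * P.derivative =
      Polynomial.C ((b₁ : R) * b₂) := by
    apply Polynomial.map_injective _ hinj
    rw [Polynomial.map_add, Polynomial.map_mul, Polynomial.map_mul, Polynomial.map_mul,
      Polynomial.map_mul, Polynomial.map_C, Polynomial.map_C, Polynomial.map_C, hb₁, hb₂,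
      ← Polynomial.derivative_map]
    have h1 : ∀ (c : R) (w : Polynomial K), c • w = Polynomial.C (algebraMap R K c) * w := by
      intro c w
      rw [← Polynomial.smul_eq_C_mul, algebraMap_smul]
    rw [h1, h1, map_mul, Polynomial.C_mul]
    linear_combination (Polynomial.C (algebraMap R K b₁) * Polynomial.C (algebraMap R K b₂)) * huv
  refine ⟨(b₁ : R) * b₂, mul_ne_zero hb₁0 hb₂0, fun t x m h1 h2 => ?_⟩
  have h3 := congrArg (fun Q : Polynomial R => (Q.map (eval t)).eval x) hkey
  simp only [Polynomial.map_add, Polynomial.map_mul, Polynomial.map_C, Polynomial.eval_add,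
    Polynomial.eval_mul, Polynomial.eval_C] at h3
  rw [← h3]
  exact dvd_add (Dvd.dvd.mul_left h1 _) (Dvd.dvd.mul_left h2 _)

end Pool.Agent.Helper26.HI
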